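import Mathlib
import Pool.Agent.Helper40.Surf.Complex
import Pool.Agent.Helper40.Surf.Stellar
import Pool.Agent.Helper65.Quad.All
import Pool.Agent.Helper65.Quad.Extra
set_option autoImplicit false

/-!
# Triangulated surfaces in 3-space with quadratically many edges

For every `n ≥ 6` there is a closed connected triangulated surface in 3-space with exactly `n`
vertices and at least `(n - 3) ^ 2 / 6` edges.
-/

namespace Pool.Agent.Results.MP_7c526b_co.Quadratic

open Pool.Agent.Helper40.Surf Pool.Agent.Helper65.Quad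
open Classical

theorem result :
  ∀ n : ℕ, 6 ≤ n →
    ∃ K : Geometry.SimplicialComplex ℝ (EuclideanSpace ℝ (Fin 3)),
      K.faces.Finite ∧
      (∀ s ∈ K.faces, s.card ≤ 3) ∧
      (∀ s ∈ K.faces, ∃ t ∈ K.faces, s ⊆ t ∧ t.card = 3) ∧
      (∀ e ∈ K.faces, e.card = 2 →
        {t : Finset (EuclideanSpace ℝ (Fin 3)) | t ∈ K.faces ∧ e ⊆ t ∧ t.card = 3}.ncard = 2) ∧
      (∀ v : EuclideanSpace ℝ (Fin 3), ({v} : Finset (EuclideanSpace ℝ (Fin 3))) ∈ K.faces →
        (SimpleGraph.fromRel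
          (fun a b : {a : EuclideanSpace ℝ (Fin 3) //
              a ≠ v ∧ ({v, a} : Finset (EuclideanSpace ℝ (Fin 3))) ∈ K.faces} =>
            ({v, a.1, b.1} : Finset (EuclideanSpace ℝ (Fin 3))) ∈ K.faces)).Connected) ∧
      (SimpleGraph.fromRel
          (fun a b : {x : EuclideanSpace ℝ (Fin 3) //
              ({x} : Finset (EuclideanSpace ℝ (Fin 3))) ∈ K.faces} =>
            ({a.1, b.1} : Finset (EuclideanSpace ℝ (Fin 3))) ∈ K.faces)).Connected ∧
      {x : EuclideanSpace ℝ (Fin 3) |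
          ({x} : Finset (EuclideanSpace ℝ (Fin 3))) ∈ K.faces}.ncard = n ∧
      ((n : ℝ) - 3) ^ 2 / 6 ≤
        (({s : Finset (EuclideanSpace ℝ (Fin 3)) | s ∈ K.faces ∧ s.card = 2}.ncard : ℕ) : ℝ) := by
  intro n hn
  set m := n / 6 with hm
  have hm1 : 1 ≤ m := by omega
  have hn1 : 6 * m ≤ n := by omega
  have hn2 : n ≤ 6 * m + 5 := by omega
  have hc' := (isComb_TT hm1).img (isGeom_TT hm1)
  have hg' := (isGeom_TT hm1).img
  have hvv : ((img (pos m) (TT m)).biUnion id).card ≤ n :=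
    (card_verts_img.trans verts_TT).trans hn1
  obtain ⟨T', h1, h2, h3, h4⟩ := pad hc' hg' (n - ((img (pos m) (TT m)).biUnion id).card)
  obtain ⟨C, k1, k2, k3, k4, k5, k6, k7, k8⟩ := exists_complex h1 h2
  refine ⟨C, k1, k2, k3, k4, k5, k6, ?_, ?_⟩
  · rw [k7, h3]; omega
  · have e1 : 4 * m ^ 2 + 4 * m ≤ T'.card :=
      (card_TT' hm1).trans (le_trans (card_img (isComb_TT hm1) (isGeom_TT hm1)).ge h4)
    have e2 : 6 * m ^ 2 + 6 * m ≤
        {s : Finset (EuclideanSpace ℝ (Fin 3)) | s ∈ C.faces ∧ s.card = 2}.ncard := by omega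
    have e3 : (6 * (m : ℝ) ^ 2 + 6 * m) ≤
        (({s : Finset (EuclideanSpace ℝ (Fin 3)) | s ∈ C.faces ∧ s.card = 2}.ncard : ℕ) : ℝ) := by
      exact_mod_cast e2
    refine le_trans ?_ e3
    have hnR : (n : ℝ) ≤ 6 * m + 5 := by exact_mod_cast hn2
    have hn0 : (6 : ℝ) ≤ n := by exact_mod_cast hn
    have hm0 : (1 : ℝ) ≤ m := by exact_mod_cast hm1
    nlinarith

end Pool.Agent.Results.MP_7c526b_co.Quadratic
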